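import Mathlib

/-!
# Cutting the cycles of a permutation with few transpositions
-/

namespace Pool.Agent.GGU

open Finset

section cyc

variable {X : Type*} [DecidableEq X]

/-- `u` returns to itself in fewer than `k` steps -/
def Short (π : Equiv.Perm X) (k : ℕ) (u : X) : Prop := ∃ d, 0 < d ∧ d < k ∧ (π ^ d) u = u

/-- the product of transpositions -/
def tr (l : List (X × X)) : Equiv.Perm X := (l.map fun x => Equiv.swap x.1 x.2).prod

theorem tr_cons (x : X × X) (l : List (X × X)) : tr (x :: l) = Equiv.swap x.1 x.2 * tr l := by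
  simp [tr]

theorem tr_append_replicate (l : List (X × X)) (x : X) (m : ℕ) :
    tr (l ++ List.replicate m (x, x)) = tr l := by
  unfold tr
  rw [List.map_append, List.prod_append, List.map_replicate, List.prod_replicate,
    Equiv.swap_self]
  have : (Equiv.refl X : Equiv.Perm X) ^ m = 1 := one_pow m
  rw [this, mul_one]

omit [DecidableEq X] in
theorem pow_apply_comm (π : Equiv.Perm X) (d e : ℕ) (u : X) :
    (π ^ d) ((π ^ e) u) = (π ^ e) ((π ^ d) u) := by
  rw [← Equiv.Perm.mul_apply, ← Equiv.Perm.mul_apply, ← pow_add, ← pow_add, Nat.add_comm]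

open Classical in
/-- one transposition cuts a segment of length `t` from a long cycle -/
theorem cut_step [Fintype X] (t : ℕ) (ht : 0 < t) (π : Equiv.Perm X) (x : X)
    (hx : ¬ Short π (2 * t) x) :
    ((univ : Finset X).filter fun u => ¬ Short (π * Equiv.swap x ((π ^ t) x)) (2 * t) u).card + t ≤
      ((univ : Finset X).filter fun u => ¬ Short π (2 * t) u).card := by
  classical
  have hx' : ∀ d, 0 < d → d < 2 * t → (π ^ d) x ≠ x := fun d h1 h2 h3 => hx ⟨d, h1, h2, h3⟩
  set y : X := (π ^ t) x with hy
  set π' : Equiv.Perm X := π * Equiv.swap x y with hπ'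
  -- the part outside the cycle
  have F1 : ∀ z : X, (∀ d, (π ^ d) z ≠ x ∧ (π ^ d) z ≠ y) → ∀ d, (π' ^ d) z = (π ^ d) z := by
    intro z hz d
    induction d with
    | zero => simp
    | succ d ih =>
      have e1 : (π' ^ (d + 1)) z = π' ((π' ^ d) z) := by
        rw [pow_succ', Equiv.Perm.mul_apply]
      have e2 : (π ^ (d + 1)) z = π ((π ^ d) z) := by
        rw [pow_succ', Equiv.Perm.mul_apply]
      rw [e1, e2, ih, hπ', Equiv.Perm.mul_apply,
        Equiv.swap_apply_of_ne_of_ne (hz d).1 (hz d).2]
  -- the segment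
  have F2 : ∀ j, 1 ≤ j → j ≤ t → (π' ^ j) y = (π ^ j) x := by
    intro j hj
    induction j, hj using Nat.le_induction with
    | base =>
      intro _
      rw [pow_one, pow_one, hπ', Equiv.Perm.mul_apply, Equiv.swap_apply_right]
    | succ j hj ih =>
      intro hjt
      have h1 : (π ^ j) x ≠ x := hx' j (by omega) (by omega)
      have h2 : (π ^ j) x ≠ y := by
        intro h
        have h3 : (π ^ j) ((π ^ (t - j)) x) = (π ^ j) x := by
          rw [← Equiv.Perm.mul_apply, ← pow_add, Nat.add_sub_cancel' (by omega), h]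
        exact hx' (t - j) (by omega) (by omega) ((π ^ j).injective h3)
      have e1 : (π' ^ (j + 1)) y = π' ((π' ^ j) y) := by
        rw [pow_succ', Equiv.Perm.mul_apply]
      have e2 : (π ^ (j + 1)) x = π ((π ^ j) x) := by
        rw [pow_succ', Equiv.Perm.mul_apply]
      rw [e1, e2, ih (by omega), hπ', Equiv.Perm.mul_apply,
        Equiv.swap_apply_of_ne_of_ne h1 h2]
  have F3 : (π' ^ t) y = y := F2 t ht le_rfl
  have F4 : ∀ j, 1 ≤ j → j ≤ t → Short π' (2 * t) ((π ^ j) x) := by
    intro j hj hjt
    refine ⟨t, ht, by omega, ?_⟩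
    rw [← F2 j hj hjt, pow_apply_comm, F3]
  -- the segment has `t` elements
  set P : Finset X := (Icc 1 t).image fun j => (π ^ j) x with hP
  have hPc : P.card = t := by
    rw [hP, card_image_of_injOn, Nat.card_Icc]
    · omega
    · have key : ∀ i j, 1 ≤ i → i < j → j ≤ t → (π ^ i) x ≠ (π ^ j) x := by
        intro i j h1 h2 h3 h4
        have h5 : (π ^ i) ((π ^ (j - i)) x) = (π ^ i) x := by
          rw [← Equiv.Perm.mul_apply, ← pow_add, Nat.add_sub_cancel' (by omega), h4]
        exact hx' (j - i) (by omega) (by omega) ((π ^ i).injective h5)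
      intro i hi j hj h
      rw [mem_coe, mem_Icc] at hi hj
      by_contra hne
      rcases Nat.lt_or_gt_of_ne hne with hlt | hlt
      · exact key i j hi.1 hlt hj.2 h
      · exact key j i hj.1 hlt hi.2 h.symm
  have hPW : P ⊆ (univ : Finset X).filter fun u => ¬ Short π (2 * t) u := by
    intro u hu
    obtain ⟨j, -, rfl⟩ := mem_image.mp hu
    rw [mem_filter]
    refine ⟨mem_univ _, ?_⟩
    rintro ⟨e, he1, he2, he3⟩
    rw [pow_apply_comm] at he3
    exact hx' e he1 he2 ((π ^ j).injective he3)
  have hsub : ((univ : Finset X).filter fun u => ¬ Short π' (2 * t) u) ⊆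
      ((univ : Finset X).filter fun u => ¬ Short π (2 * t) u) \ P := by
    intro u hu
    rw [mem_filter] at hu
    rw [mem_sdiff, mem_filter]
    refine ⟨⟨mem_univ _, ?_⟩, ?_⟩
    · rintro ⟨e, he1, he2, he3⟩
      apply hu.2
      refine ⟨e, he1, he2, ?_⟩
      rw [F1 u ?_ e, he3]
      intro d
      constructor
      · intro h
        apply hx' e he1 he2
        rw [← h, pow_apply_comm, he3]
      · intro h
        apply hx' e he1 he2
        have h1 : (π ^ e) y = y := by rw [← h, pow_apply_comm, he3]
        rw [hy, pow_apply_comm] at h1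
        exact (π ^ t).injective h1
    · intro hP'
      obtain ⟨j, hj, rfl⟩ := mem_image.mp hP'
      rw [mem_Icc] at hj
      exact hu.2 (F4 j hj.1 hj.2)
  have h1 := card_le_card hsub
  rw [card_sdiff_of_subset hPW, hPc] at h1
  have h2 := card_le_card hPW
  rw [hPc] at h2
  omega

open Classical in
/-- **Cutting.** With at most `|X| / t` transpositions all cycles become shorter than `2 t`. -/
theorem exists_cut [Fintype X] (t : ℕ) (ht : 0 < t) (k : ℕ) : ∀ π : Equiv.Perm X,
    ((univ : Finset X).filter fun u => ¬ Short π (2 * t) u).card ≤ k →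
    ∃ l : List (X × X), l.length * t ≤ k ∧ ∀ u, Short (π * tr l) (2 * t) u := by
  induction k using Nat.strong_induction_on with
  | _ k ih =>
    intro π hk
    by_cases h : ∀ u, Short π (2 * t) u
    · refine ⟨[], by simp, ?_⟩
      intro u
      have : π * tr [] = π := by simp [tr]
      rw [this]
      exact h u
    · push Not at h
      obtain ⟨x, hx⟩ := h
      have h1 := cut_step t ht π x hx
      obtain ⟨l, hl, hs⟩ := ih (k - t) (by omega) (π * Equiv.swap x ((π ^ t) x)) (by omega)
      refine ⟨(x, (π ^ t) x) :: l, ?_, ?_⟩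
      · rw [List.length_cons, Nat.succ_mul]
        omega
      · intro u
        rw [tr_cons, ← mul_assoc]
        exact hs u

/-- the permutation coded by a finite sequence of pairs -/
def trf {m : ℕ} (s : Fin m → X × X) : Equiv.Perm X := tr (List.ofFn s)

omit [DecidableEq X] in
theorem ofFn_cast {m : ℕ} (l : List (X × X)) (h : l.length = m) :
    List.ofFn (fun i : Fin m => l.get (i.cast h.symm)) = l := by
  subst h
  exact List.ofFn_get l

theorem exists_cut' [Fintype X] [Nonempty X] (t m : ℕ) (ht : 0 < t)
    (hm : Fintype.card X / t ≤ m) (π : Equiv.Perm X) :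
    ∃ s : Fin m → X × X, ∀ u, Short (π * trf s) (2 * t) u := by
  classical
  obtain ⟨l, hl, hs⟩ := exists_cut (X := X) t ht (Fintype.card X) π (card_le_univ _)
  have hlm : l.length ≤ m := by
    refine le_trans ?_ hm
    rw [Nat.le_div_iff_mul_le ht]
    exact hl
  obtain ⟨x0⟩ := (inferInstance : Nonempty X)
  set l' : List (X × X) := l ++ List.replicate (m - l.length) (x0, x0) with hl'
  have hlen : l'.length = m := by
    rw [hl', List.length_append, List.length_replicate]
    omega
  refine ⟨fun i => l'.get (i.cast hlen.symm), ?_⟩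
  intro u
  have h1 : List.ofFn (fun i : Fin m => l'.get (i.cast hlen.symm)) = l' := ofFn_cast l' hlen
  unfold trf
  rw [h1, hl', tr_append_replicate]
  exact hs u

end cyc

end Pool.Agent.GGU
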