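import Mathlib

/-!
# Perfect hash functions
-/

namespace Pool.Agent.GGU

open Finset

open Classical in
/-- **Greedy covering.** If every element of `G` is good for at least `D` of the elements of `β`,
then after `k` choices at most `|G| (1 - D / |β|) ^ k` elements are not covered. -/
theorem greedy {α β : Type*} [Fintype β] (good : β → α → Prop) (G : Finset α) (D : ℕ)
    (hD : ∀ a ∈ G, D ≤ ((univ : Finset β).filter fun b => good b a).card) (hB : 0 < Fintype.card β)
    (k : ℕ) : ∃ b : Fin k → β,
      (G.filter fun a => ∀ i, ¬ good (b i) a).card * Fintype.card β ^ k ≤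
        G.card * (Fintype.card β - D) ^ k := by
  induction k with
  | zero =>
    refine ⟨Fin.elim0, ?_⟩
    simp only [pow_zero, mul_one]
    exact card_filter_le _ _
  | succ k ih =>
    obtain ⟨b, hb⟩ := ih
    set U : Finset α := G.filter fun a => ∀ i, ¬ good (b i) a with hU
    -- a good choice
    have hex : ∃ c : β, U.card * D ≤ (U.filter fun a => good c a).card * Fintype.card β := by
      by_contra hcon
      push Not at hcon
      have hne : (univ : Finset β).Nonempty := by
        rw [univ_nonempty_iff]
        exact Fintype.card_pos_iff.mp hB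
      have h1 : ∑ c : β, (U.filter fun a => good c a).card * Fintype.card β <
          ∑ _c : β, U.card * D := sum_lt_sum_of_nonempty hne (fun c _ => hcon c)
      have h2 : ∑ c : β, (U.filter fun a => good c a).card =
          ∑ a ∈ U, ((univ : Finset β).filter fun c => good c a).card := by
        simp only [card_filter]
        exact sum_comm
      have h3 : U.card * D ≤ ∑ c : β, (U.filter fun a => good c a).card := by
        rw [h2, ← smul_eq_mul, ← sum_const]
        exact sum_le_sum fun a ha => hD a (mem_filter.mp ha).1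
      rw [← sum_mul, sum_const, card_univ, smul_eq_mul] at h1
      have h4 : U.card * D * Fintype.card β ≤
          (∑ c : β, (U.filter fun a => good c a).card) * Fintype.card β :=
        Nat.mul_le_mul_right _ h3
      have h5 : Fintype.card β * (U.card * D) = U.card * D * Fintype.card β := by ring
      omega
    obtain ⟨c, hc⟩ := hex
    refine ⟨Fin.snoc b c, ?_⟩
    have hsub : (G.filter fun a => ∀ i, ¬ good ((Fin.snoc b c : Fin (k + 1) → β) i) a) ⊆
        U.filter fun a => ¬ good c a := by
      intro a ha
      rw [mem_filter] at ha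
      rw [mem_filter, hU, mem_filter]
      refine ⟨⟨ha.1, fun i => ?_⟩, ?_⟩
      · have := ha.2 i.castSucc
        rwa [Fin.snoc_castSucc] at this
      · have := ha.2 (Fin.last k)
        rwa [Fin.snoc_last] at this
    have h1 := card_le_card hsub
    have h2 := card_filter_add_card_filter_not (s := U) (fun a => good c a)
    set V := (U.filter fun a => ¬ good c a).card with hV
    have h3 : V * Fintype.card β ≤ U.card * (Fintype.card β - D) := by
      rcases le_total (Fintype.card β) D with h | h
      · -- then everything is covered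
        have h4 : U.card * Fintype.card β ≤ (U.filter fun a => good c a).card *
            Fintype.card β := (Nat.mul_le_mul_left _ h).trans hc
        have h5 : U.card ≤ (U.filter fun a => good c a).card :=
          Nat.le_of_mul_le_mul_right h4 hB
        have h6 : V = 0 := by omega
        rw [h6, zero_mul]
        exact Nat.zero_le _
      · rw [Nat.mul_sub]
        have h4 : U.card * Fintype.card β =
            (U.filter fun a => good c a).card * Fintype.card β + V * Fintype.card β := by
          rw [← add_mul, h2]
        omega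
    calc (G.filter fun a => ∀ i, ¬ good ((Fin.snoc b c : Fin (k + 1) → β) i) a).card *
          Fintype.card β ^ (k + 1)
        ≤ V * Fintype.card β ^ (k + 1) := Nat.mul_le_mul_right _ h1
      _ = V * Fintype.card β * Fintype.card β ^ k := by ring
      _ ≤ U.card * (Fintype.card β - D) * Fintype.card β ^ k := Nat.mul_le_mul_right _ h3
      _ = U.card * Fintype.card β ^ k * (Fintype.card β - D) := by ring
      _ ≤ G.card * (Fintype.card β - D) ^ k * (Fintype.card β - D) :=
          Nat.mul_le_mul_right _ hb
      _ = G.card * (Fintype.card β - D) ^ (k + 1) := by ring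

open Classical in
/-- the number of the functions that are injective on a set with `N` elements -/
theorem card_injOn {L : Type*} [Fintype L] (N : ℕ) (Λ : Finset L) (hΛ : Λ.card = N) :
    N.factorial * N ^ (Fintype.card L - N) ≤
      ((univ : Finset (L → Fin N)).filter fun h => Set.InjOn h (Λ : Set L)).card := by
  let Φ : ({x // x ∈ Λ} ↪ Fin N) × ({x // x ∉ Λ} → Fin N) → (L → Fin N) :=
    fun e x => if hx : x ∈ Λ then e.1 ⟨x, hx⟩ else e.2 ⟨x, hx⟩
  have hΦ : Function.Injective Φ := by
    rintro ⟨e, g⟩ ⟨e', g'⟩ h
    have h1 : e = e' := by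
      ext ⟨x, hx⟩
      have := congrFun h x
      simp only [Φ, dif_pos hx] at this
      rw [this]
    have h2 : g = g' := by
      funext ⟨x, hx⟩
      have := congrFun h x
      simp only [Φ, dif_neg hx] at this
      exact this
    rw [h1, h2]
  have hc : Fintype.card (({x // x ∈ Λ} ↪ Fin N) × ({x // x ∉ Λ} → Fin N)) =
      N.factorial * N ^ (Fintype.card L - N) := by
    rw [Fintype.card_prod, Fintype.card_embedding_eq, Fintype.card_fun, Fintype.card_coe,
      Fintype.card_fin, hΛ, Nat.descFactorial_self]
    congr 2
    rw [Fintype.card_subtype_compl, Fintype.card_coe, hΛ]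
  rw [← hc, ← card_univ]
  refine card_le_card_of_injOn Φ ?_ hΦ.injOn
  rintro ⟨e, g⟩ -
  rw [mem_coe, mem_filter]
  refine ⟨mem_univ _, ?_⟩
  intro x hx y hy hxy
  have hx' : x ∈ Λ := hx
  have hy' : y ∈ Λ := hy
  simp only [Φ, dif_pos hx', dif_pos hy'] at hxy
  have := e.injective hxy
  exact congrArg Subtype.val this

/-- **Perfect hash functions.** -/
theorem exists_hash (L : Type) [Fintype L] (N : ℕ) (hN : 1 ≤ N) (hNL : N ≤ Fintype.card L) :
    ∃ (F : ℕ) (h : Fin F → L → Fin N),
      (F : ℝ) ≤ N * Real.log (Fintype.card L) * Real.exp N + 1 ∧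
      ∀ g : Fin N → L, Function.Injective g → ∃ i, Function.Bijective fun v => h i (g v) := by
  classical
  set p := Fintype.card L with hp
  have hp1 : 1 ≤ p := hN.trans hNL
  have hpR : (1 : ℝ) ≤ p := by exact_mod_cast hp1
  set x : ℝ := N * Real.log p * Real.exp N with hx
  have hlog : 0 ≤ Real.log p := Real.log_nonneg hpR
  have hx0 : 0 ≤ x := by positivity
  set k : ℕ := ⌊x⌋₊ + 1 with hk
  have hNF : Nonempty (Fin N) := ⟨⟨0, hN⟩⟩
  have hB : Fintype.card (L → Fin N) = N ^ p := by
    rw [Fintype.card_fun, Fintype.card_fin]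
  obtain ⟨b, hb⟩ := greedy (fun (h : L → Fin N) (Λ : Finset L) => Set.InjOn h (Λ : Set L))
    ((univ : Finset L).powersetCard N) (N.factorial * N ^ (p - N))
    (fun Λ hΛ => by
      have h0 := card_injOn N Λ (mem_powersetCard.mp hΛ).2
      convert h0)
    (by rw [hB]; exact Nat.pow_pos hN) k
  rw [hB] at hb
  set U : Finset (Finset L) := (((univ : Finset L).powersetCard N).filter fun Λ : Finset L =>
    ∀ i, ¬ Set.InjOn (b i) (Λ : Set L)) with hU
  have hb' : U.card * (N ^ p) ^ k ≤ (((univ : Finset L).powersetCard N)).card *
      (N ^ p - N.factorial * N ^ (p - N)) ^ k := by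
    convert hb
  -- nothing remains
  have hU0 : U = ∅ := by
    by_contra hne
    have h1 : 1 ≤ U.card := card_pos.mpr (nonempty_iff_ne_empty.mpr hne)
    have hNN : (0 : ℝ) < (N : ℝ) ^ p := by
      have : (0 : ℝ) < N := by exact_mod_cast hN
      positivity
    have hNN' : (0 : ℝ) < (N : ℝ) ^ N := by
      have : (0 : ℝ) < N := by exact_mod_cast hN
      positivity
    have hfac : (0 : ℝ) < N.factorial := by exact_mod_cast Nat.factorial_pos N
    set ρ : ℝ := N.factorial / (N : ℝ) ^ N with hρ
    have hρ0 : 0 < ρ := by positivity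
    have hρe : 1 ≤ ρ * Real.exp N := by
      have h2 := Real.pow_div_factorial_le_exp (N : ℝ) (by positivity) N
      rw [div_le_iff₀ hfac] at h2
      rw [hρ, div_mul_eq_mul_div, le_div_iff₀ hNN']
      linarith
    have hDle : N.factorial * N ^ (p - N) ≤ N ^ p := by
      calc N.factorial * N ^ (p - N) ≤ N ^ N * N ^ (p - N) :=
            Nat.mul_le_mul_right _ (Nat.factorial_le_pow N)
        _ = N ^ p := by rw [← pow_add, Nat.add_sub_cancel' hNL]
    have hDR : ((N ^ p - N.factorial * N ^ (p - N) : ℕ) : ℝ) = (N : ℝ) ^ p * (1 - ρ) := by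
      rw [Nat.cast_sub hDle]
      push_cast
      have h2 : (N : ℝ) ^ p = (N : ℝ) ^ N * (N : ℝ) ^ (p - N) := by
        rw [← pow_add, Nat.add_sub_cancel' hNL]
      rw [hρ, mul_sub, mul_one, h2]
      field_simp
    have h2 : (U.card : ℝ) * ((N : ℝ) ^ p) ^ k ≤
        (p : ℝ) ^ N * ((N : ℝ) ^ p * (1 - ρ)) ^ k := by
      have h3 : (U.card : ℝ) * ((N : ℝ) ^ p) ^ k ≤
          (((univ : Finset L).powersetCard N).card : ℝ) *
            ((N ^ p - N.factorial * N ^ (p - N) : ℕ) : ℝ) ^ k := by exact_mod_cast hb'
      rw [hDR] at h3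
      refine h3.trans (mul_le_mul_of_nonneg_right ?_ ?_)
      · rw [card_powersetCard, card_univ]
        exact_mod_cast Nat.choose_le_pow p N
      · rw [← hDR]
        positivity
    rw [mul_pow] at h2
    have h3 : (0 : ℝ) < ((N : ℝ) ^ p) ^ k := by positivity
    have h4 : (U.card : ℝ) ≤ (p : ℝ) ^ N * (1 - ρ) ^ k := by
      have h5 : (U.card : ℝ) * ((N : ℝ) ^ p) ^ k ≤
          ((p : ℝ) ^ N * (1 - ρ) ^ k) * ((N : ℝ) ^ p) ^ k := by
        calc _ ≤ _ := h2
          _ = _ := by ring
      exact le_of_mul_le_mul_right h5 h3
    have hρ1 : 0 ≤ 1 - ρ := by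
      rw [sub_nonneg, hρ, div_le_one hNN']
      exact_mod_cast Nat.factorial_le_pow N
    have h5 : (1 - ρ) ^ k ≤ Real.exp (-(ρ * k)) := by
      calc (1 - ρ) ^ k ≤ (Real.exp (-ρ)) ^ k := by
            refine pow_le_pow_left₀ hρ1 ?_ k
            have := Real.add_one_le_exp (-ρ)
            linarith
        _ = Real.exp (-(ρ * k)) := by
            rw [← Real.exp_nat_mul]
            congr 1
            ring
    have h6 : (p : ℝ) ^ N = Real.exp (N * Real.log p) := by
      rw [Real.exp_nat_mul, Real.exp_log (by linarith)]
    have h7 : (N : ℝ) * Real.log p < ρ * k := by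
      have h8 : x < k := by
        rw [hk]
        push_cast
        exact Nat.lt_floor_add_one x
      calc (N : ℝ) * Real.log p = N * Real.log p * 1 := by ring
        _ ≤ N * Real.log p * (ρ * Real.exp N) :=
            mul_le_mul_of_nonneg_left hρe (by positivity)
        _ = ρ * x := by rw [hx]; ring
        _ < ρ * k := mul_lt_mul_of_pos_left h8 hρ0
    have h8 : (p : ℝ) ^ N * (1 - ρ) ^ k < 1 := by
      calc (p : ℝ) ^ N * (1 - ρ) ^ k ≤ Real.exp (N * Real.log p) * Real.exp (-(ρ * k)) := by
            rw [h6]
            exact mul_le_mul_of_nonneg_left h5 (Real.exp_pos _).le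
        _ = Real.exp (N * Real.log p - ρ * k) := by
            rw [← Real.exp_add]
            congr 1
        _ < 1 := by
            rw [Real.exp_lt_one_iff]
            linarith
    have h9 : (1 : ℝ) ≤ U.card := by exact_mod_cast h1
    linarith
  refine ⟨k, b, ?_, ?_⟩
  · rw [hk]
    push_cast
    have := Nat.floor_le hx0
    linarith
  · intro g hg
    by_contra hcon
    push Not at hcon
    have h1 : (univ : Finset (Fin N)).image g ∈ U := by
      rw [hU, mem_filter, mem_powersetCard]
      refine ⟨⟨subset_univ _, ?_⟩, ?_⟩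
      · rw [card_image_of_injective _ hg]
        simp
      · intro i hi
        apply hcon i
        rw [Fintype.bijective_iff_injective_and_card]
        refine ⟨?_, rfl⟩
        intro v w hvw
        have hv : g v ∈ ((univ : Finset (Fin N)).image g : Set L) := by
          rw [mem_coe]
          exact mem_image_of_mem _ (mem_univ _)
        have hw : g w ∈ ((univ : Finset (Fin N)).image g : Set L) := by
          rw [mem_coe]
          exact mem_image_of_mem _ (mem_univ _)
        exact hg (hi hv hw hvw)
    rw [hU0] at h1
    simp at h1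

end Pool.Agent.GGU
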